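import Pool.Agent.H980R2.Cont.Main
import Pool.Agent.H980R2.Cont.Mom

set_option autoImplicit false

/-!
# Critical bond percolation on `ℤ²`: the number of contacts of the exploration path with the end of a
half-infinite strip

Critical bond percolation (`p = 1/2`) on the square lattice rotated by 45 degrees, in the
half-infinite strip of the columns `0, …, L`, `L = 2 n + 1`: the vertex `(u,v)` sits in the column
`u - v` at the height `u + v`, and the strip consists of the heights `≤ 1`. Let `N` be the number of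
the `n` vertices of the flat end (height `1`, columns `1, 3, …, 2 n - 1`) which are joined inside the
strip to the right side (the column `L`) by an open path: the vertices of the flat end bordered by the
exploration path of the clusters attached to the right side.

(1) The exact law of `N`, for all `n`.
(2) A local limit theorem: `L^(2/3) P (N = ⌊x L^(2/3)⌋) → exp (-x³) / Γ(4/3)` for every `x ≥ 0`.
(3) `N / L^(2/3)` converges in law to the density `exp (-x³) / Γ(4/3)` on `(0, ∞)`.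
(4) Convergence of all moments.

The exact law, (3) and (4) are proved in the starting helper files `Pool.Agent.H980R2.Cont`; the
local limit theorem (2) is new.
-/

namespace Pool.Agent.Results.MP_6c8efb_pr.ContactsLimitLaw

open MeasureTheory Filter Topology

/-- edges of `ℤ²`: `(u,v,false)` joins `(u,v)` and `(u+1,v)`; `(u,v,true)` joins `(u,v)` and
`(u,v+1)`. -/
abbrev Edge := ℤ × ℤ × Bool

/-- configurations (`true` = open) -/
abbrev Conf := Edge → Bool

/-- `x` and `y` are the two ends of an open edge -/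
def OpenAdj (ω : Conf) (x y : ℤ × ℤ) : Prop :=
  (y = (x.1 + 1, x.2) ∧ ω (x.1, x.2, false) = true) ∨
  (x = (y.1 + 1, y.2) ∧ ω (y.1, y.2, false) = true) ∨
  (y = (x.1, x.2 + 1) ∧ ω (x.1, x.2, true) = true) ∨
  (x = (y.1, y.2 + 1) ∧ ω (y.1, y.2, true) = true)

/-- bond percolation at `p = 1/2`: independent fair coins on the edges -/
noncomputable def perc : Measure Conf :=
  Measure.infinitePi (fun _ : Edge => (PMF.uniformOfFintype Bool).toMeasure)

/-- the half-infinite strip: the columns `0 ≤ u - v ≤ L` at the heights `u + v ≤ 1` -/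
def InStrip (L : ℕ) (x : ℤ × ℤ) : Prop := 0 ≤ x.1 - x.2 ∧ x.1 - x.2 ≤ L ∧ x.1 + x.2 ≤ 1

/-- the vertices `x` and `y` are joined by an open path inside the half-infinite strip -/
def Joined (L : ℕ) (ω : Conf) (x y : ℤ × ℤ) : Prop :=
  Relation.ReflTransGen (fun a b => OpenAdj ω a b ∧ InStrip L a ∧ InStrip L b) x y

/-- the vertices of the flat end (height `1`), not in the column `L`, joined to the column `L` -/
def contacts (L : ℕ) (ω : Conf) : Set (ℤ × ℤ) :=
  {x | x.1 + x.2 = 1 ∧ 0 ≤ x.1 - x.2 ∧ x.1 - x.2 < (L : ℤ) ∧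
    ∃ y : ℤ × ℤ, y.1 - y.2 = (L : ℤ) ∧ Joined L ω x y}

/-- `d n s = s (s + 1) ∏_{i=1}^{s-1} 2 (2 n + 2 i + 3) (n - i) / ((2 n - i - 1) (2 n + i + 4))` -/
noncomputable def d (n s : ℕ) : ℝ :=
  (s : ℝ) * (s + 1) * ∏ i ∈ Finset.Icc 1 (s - 1),
    (2 * (2 * (n : ℝ) + 2 * i + 3) * ((n : ℝ) - i)) / ((2 * (n : ℝ) - i - 1) * (2 * n + i + 4))

/-- the weight `a n k = ∑_{s=k}^n d n s` of the value `k` -/
noncomputable def a (n k : ℕ) : ℝ := ∑ s ∈ Finset.Icc k n, d n s

lemma alg (a A t r : ℝ) (hA : A ≠ 0) (hr : r ≠ 0) : (a / A) / (t / (r * A)) = r * (a / t) := by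
  by_cases ht : t = 0
  · simp [ht]
  · field_simp

/-- Exact law, local limit theorem, limit law and moments of the number of contacts. -/
theorem result :
    (∀ n k : ℕ, 1 ≤ n → k ≤ n → perc.real {ω | (contacts (2 * n + 1) ω).ncard = k} =
      a n k / ∑ j ∈ Finset.range (n + 1), a n j) ∧
    (∀ x : ℝ, 0 ≤ x → Tendsto (fun n : ℕ => (2 * (n : ℝ) + 1) ^ ((2 : ℝ) / 3) *
        perc.real {ω | (contacts (2 * n + 1) ω).ncard = ⌊x * (2 * (n : ℝ) + 1) ^ ((2 : ℝ) / 3)⌋₊})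
      atTop (𝓝 (Real.exp (-x ^ 3) / Real.Gamma (4 / 3)))) ∧
    (∀ t : ℝ, 0 ≤ t → Tendsto (fun n : ℕ =>
        perc.real {ω | ((contacts (2 * n + 1) ω).ncard : ℝ) ≤ t * (2 * (n : ℝ) + 1) ^ ((2 : ℝ) / 3)})
      atTop (𝓝 ((∫ x in (0 : ℝ)..t, Real.exp (-x ^ 3)) / Real.Gamma (4 / 3)))) ∧
    (∀ m : ℕ, Tendsto (fun n : ℕ =>
        ∫ ω, (((contacts (2 * n + 1) ω).ncard : ℝ) / (2 * (n : ℝ) + 1) ^ ((2 : ℝ) / 3)) ^ m ∂perc)
      atTop (𝓝 (Real.Gamma (((m : ℝ) + 1) / 3) / Real.Gamma (1 / 3)))) := by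
  refine ⟨fun n k hn hk => Pool.Agent.H980R2.Cont.main n hn k hk, fun x hx => ?_,
    fun t ht => Pool.Agent.H980R2.Cont.limit_law t ht, fun m => Pool.Agent.H980R2.Cont.moments m⟩
  have hG : 0 < Real.Gamma (4 / 3) := Real.Gamma_pos_of_pos (by norm_num)
  have h1 := (Pool.Agent.H980R2.Cont.tl_tendsto x hx).div Pool.Agent.H980R2.Cont.T22.riem0
    (by positivity)
  have e : Real.exp (-x ^ 3) / 3 / (Real.Gamma (4 / 3) / 3) =
      Real.exp (-x ^ 3) / Real.Gamma (4 / 3) := by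
    field_simp
  rw [e] at h1
  have hc : Tendsto (fun n : ℕ => (n : ℝ) / (2 * (n : ℝ) + 1) ^ ((2 : ℝ) / 3)) atTop atTop := by
    have h2 : Tendsto (fun n : ℕ => (n : ℝ) ^ ((1 : ℝ) / 3) / 3) atTop atTop :=
      ((tendsto_rpow_atTop (by norm_num)).comp tendsto_natCast_atTop_atTop).atTop_div_const
        (by norm_num)
    refine tendsto_atTop_mono' _ ?_ h2
    filter_upwards [eventually_ge_atTop 1] with n hn
    have hn1 : (1 : ℝ) ≤ n := by exact_mod_cast hn
    have hn0 : (0 : ℝ) < n := by linarith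
    have h3 : (2 * (n : ℝ) + 1) ^ ((2 : ℝ) / 3) ≤ 3 * (n : ℝ) ^ ((2 : ℝ) / 3) := by
      calc (2 * (n : ℝ) + 1) ^ ((2 : ℝ) / 3) ≤ (3 * (n : ℝ)) ^ ((2 : ℝ) / 3) := by
            apply Real.rpow_le_rpow (by positivity) (by linarith) (by norm_num)
        _ = 3 ^ ((2 : ℝ) / 3) * (n : ℝ) ^ ((2 : ℝ) / 3) := Real.mul_rpow (by norm_num) hn0.le
        _ ≤ 3 * (n : ℝ) ^ ((2 : ℝ) / 3) := by
            have : (3 : ℝ) ^ ((2 : ℝ) / 3) ≤ 3 ^ (1 : ℝ) :=
              Real.rpow_le_rpow_of_exponent_le (by norm_num) (by norm_num)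
            rw [Real.rpow_one] at this
            gcongr
    rw [le_div_iff₀ (by positivity), div_mul_eq_mul_div, div_le_iff₀ (by norm_num)]
    calc (n : ℝ) ^ ((1 : ℝ) / 3) * (2 * (n : ℝ) + 1) ^ ((2 : ℝ) / 3)
        ≤ (n : ℝ) ^ ((1 : ℝ) / 3) * (3 * (n : ℝ) ^ ((2 : ℝ) / 3)) := by gcongr
      _ = 3 * ((n : ℝ) ^ ((1 : ℝ) / 3) * (n : ℝ) ^ ((2 : ℝ) / 3)) := by ring
      _ = (n : ℝ) * 3 := by
          rw [← Real.rpow_add hn0]
          norm_num
          ring
  refine h1.congr' ?_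
  filter_upwards [hc.eventually_ge_atTop x, eventually_ge_atTop 1] with n hx1 hn
  have hr : (0 : ℝ) < (2 * (n : ℝ) + 1) ^ ((2 : ℝ) / 3) := by positivity
  have hk : ⌊x * (2 * (n : ℝ) + 1) ^ ((2 : ℝ) / 3)⌋₊ ≤ n := by
    refine Nat.floor_le_of_le ?_
    rwa [le_div_iff₀ hr] at hx1
  have h4 := Pool.Agent.H980R2.Cont.main n hn _ hk
  have h5 : perc.real {ω | (contacts (2 * n + 1) ω).ncard =
      ⌊x * (2 * (n : ℝ) + 1) ^ ((2 : ℝ) / 3)⌋₊} =
      Pool.Agent.H980R2.Cont.tl n ⌊x * (2 * (n : ℝ) + 1) ^ ((2 : ℝ) / 3)⌋₊ /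
        Pool.Agent.H980R2.Cont.tot n := h4
  rw [h5]
  have hn0 : (2 * (n : ℝ) + 1) ^ 2 ≠ 0 := by positivity
  have hr0 : (2 * (n : ℝ) + 1) ^ ((2 : ℝ) / 3) ≠ 0 := hr.ne'
  exact alg _ _ _ _ hn0 hr0

end Pool.Agent.Results.MP_6c8efb_pr.ContactsLimitLaw
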