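import Pool.Agent.H985R6.LC.All

/-!
Critical bond percolation on the square lattice (`p = 1/2`) in the upper half-plane `ℤ × ℕ`.
For `N ≥ 1` the smallest integer `k ≥ 0` such that `(k, 0)` is joined to `(-∞, -N] × {0}` by open
edges is the point at which the exploration path which starts at `-N` (boundary condition: the
points `(x, 0)`, `x ≤ -N`, belong to the explored cluster) arrives on `[0, ∞)`. Its law is
comparable with the law of the corresponding point of chordal `SLE(6)` (Cardy's formula), on all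
scales down to single lattice points, with constants which do not depend on `N`.
-/

set_option autoImplicit false

namespace Pool.Agent.Results.MP_6c8efb_pr.HittingLaw

open MeasureTheory

/-- The square lattice: two points of `ℤ²` are adjacent when they differ by one in exactly one
coordinate. -/
def Z2 : SimpleGraph (ℤ × ℤ) where
  Adj u v := |u.1 - v.1| + |u.2 - v.2| = 1
  symm := ⟨fun u v h => by rw [abs_sub_comm v.1, abs_sub_comm v.2]; exact h⟩
  loopless := ⟨fun u h => by simp at h⟩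

/-- Critical bond percolation: every edge of the square lattice is open (`true`) with
probability `1/2`, independently of the other edges. -/
noncomputable def crit : Measure (Z2.edgeSet → Bool) :=
  Measure.infinitePi (fun _ => ProbabilityTheory.bernoulliMeasure true false
    ⟨1/2, by norm_num, by norm_num⟩)

/-- The graph of the open edges with both endpoints in the closed upper half-plane. -/
def openGraph (ω : Z2.edgeSet → Bool) : SimpleGraph (ℤ × ℤ) :=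
  SimpleGraph.fromEdgeSet {e | (∃ h : e ∈ Z2.edgeSet, ω ⟨e, h⟩ = true) ∧ ∀ v ∈ e, 0 ≤ v.2}

/-- The boundary point `(j, 0)` is joined to `(-∞, -N] × {0}` by an open path of the closed upper
half-plane. -/
def JoinedToLeft (N : ℕ) (j : ℕ) (ω : Z2.edgeSet → Bool) : Prop :=
  ∃ x : ℤ, x ≤ -(N : ℤ) ∧ (openGraph ω).Reachable (x, 0) ((j : ℤ), 0)

/-- `k` is the smallest integer `k ≥ 0` such that `(k, 0)` is joined to `(-∞, -N] × {0}`. -/
def Hits (N k : ℕ) (ω : Z2.edgeSet → Bool) : Prop :=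
  JoinedToLeft N k ω ∧ ∀ j : ℕ, j < k → ¬ JoinedToLeft N j ω

/-- Cardy's function. -/
noncomputable def cardyF (x : ℝ) : ℝ :=
  (∫ u in (0 : ℝ)..x, u ^ (-(2/3) : ℝ) * (1 - u) ^ (-(2/3) : ℝ)) /
    ∫ u in (0 : ℝ)..1, u ^ (-(2/3) : ℝ) * (1 - u) ^ (-(2/3) : ℝ)

theorem adj_iff (ω : Z2.edgeSet → Bool) (u v : ℤ × ℤ) :
    (openGraph ω).Adj u v ↔ (H974.openGraph ω).Adj u v ∧ 0 ≤ u.2 ∧ 0 ≤ v.2 := by
  unfold openGraph H974.openGraph
  rw [SimpleGraph.fromEdgeSet_adj, SimpleGraph.fromEdgeSet_adj]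
  constructor
  · rintro ⟨⟨h, hV⟩, hne⟩
    exact ⟨⟨h, hne⟩, hV u (Sym2.mem_mk_left u v), hV v (Sym2.mem_mk_right u v)⟩
  · rintro ⟨⟨h, hne⟩, hu, hv⟩
    refine ⟨⟨h, ?_⟩, hne⟩
    intro w hw
    rcases Sym2.mem_iff.mp hw with rfl | rfl
    · exact hu
    · exact hv

theorem reach_of_walk (ω : Z2.edgeSet → Bool) {u v : ℤ × ℤ} (p : (H974.openGraph ω).Walk u v) :
    (∀ w ∈ p.support, 0 ≤ w.2) → (openGraph ω).Reachable u v := by
  induction p with
  | nil => exact fun _ => SimpleGraph.Reachable.refl _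
  | cons h p ih =>
    intro hs
    have h1 : ∀ w ∈ p.support, 0 ≤ w.2 := fun w hw => hs w (by
      rw [SimpleGraph.Walk.support_cons]; exact List.mem_cons_of_mem _ hw)
    have h2 := hs _ (SimpleGraph.Walk.start_mem_support _)
    have h3 := h1 _ (SimpleGraph.Walk.start_mem_support _)
    have h4 := (adj_iff ω _ _).mpr ⟨h, h2, h3⟩
    exact h4.reachable.trans (ih h1)

theorem walk_of_walk (ω : Z2.edgeSet → Bool) {u v : ℤ × ℤ} (p : (openGraph ω).Walk u v) :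
    0 ≤ u.2 → ∃ q : (H974.openGraph ω).Walk u v, ∀ w ∈ q.support, 0 ≤ w.2 := by
  induction p with
  | nil =>
    intro hu
    refine ⟨SimpleGraph.Walk.nil, fun w hw => ?_⟩
    rw [SimpleGraph.Walk.support_nil, List.mem_singleton] at hw
    rw [hw]
    exact hu
  | cons h p ih =>
    intro hu
    obtain ⟨h1, h2, h3⟩ := (adj_iff ω _ _).mp h
    obtain ⟨q, hq⟩ := ih h3
    refine ⟨SimpleGraph.Walk.cons h1 q, fun w hw => ?_⟩
    rw [SimpleGraph.Walk.support_cons, List.mem_cons] at hw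
    rcases hw with rfl | hw
    · exact hu
    · exact hq w hw

theorem joined_iff (I J : Set ℤ) (ω : Z2.edgeSet → Bool) :
    ω ∈ H731C.Joined I J ↔ ∃ x ∈ I, ∃ y ∈ J, (openGraph ω).Reachable (x, 0) (y, 0) := by
  constructor
  · rintro ⟨x, hx, y, hy, p, hp⟩
    exact ⟨x, hx, y, hy, reach_of_walk ω p hp⟩
  · rintro ⟨x, hx, y, hy, ⟨p⟩⟩
    obtain ⟨q, hq⟩ := walk_of_walk ω p le_rfl
    exact ⟨x, hx, y, hy, q, hq⟩

theorem left_iff (N j : ℕ) (ω : Z2.edgeSet → Bool) :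
    JoinedToLeft N j ω ↔ ω ∈ H731C.Joined (Set.Iic (-(N : ℤ))) {(j : ℤ)} := by
  rw [joined_iff]
  constructor
  · rintro ⟨x, hx, h⟩
    exact ⟨x, hx, j, rfl, h⟩
  · rintro ⟨x, hx, y, hy, h⟩
    rw [Set.mem_singleton_iff] at hy
    subst hy
    exact ⟨x, hx, h⟩

theorem before_iff (N k : ℕ) (ω : Z2.edgeSet → Bool) :
    (∀ j : ℕ, j < k → ¬ JoinedToLeft N j ω) ↔
      ω ∉ H731C.Joined (Set.Iic (-(N : ℤ))) (Set.Icc 0 ((k : ℤ) - 1)) := by
  rw [joined_iff]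
  constructor
  · rintro h ⟨x, hx, y, hy, hr⟩
    obtain ⟨j, rfl⟩ := Int.eq_ofNat_of_zero_le hy.1
    exact h j (by have := hy.2; omega) ⟨x, hx, hr⟩
  · rintro h j hj ⟨x, hx, hr⟩
    exact h ⟨x, hx, j, ⟨by omega, by omega⟩, hr⟩

theorem hits_set (N k : ℕ) : {ω | Hits N k ω} =
    H731C.Joined (Set.Iic (-(N : ℤ))) {(k : ℤ)} \
      H731C.Joined (Set.Iic (-(N : ℤ))) (Set.Icc 0 ((k : ℤ) - 1)) := by
  ext ω
  exact ⟨fun h => ⟨(left_iff N k ω).mp h.1, (before_iff N k ω).mp h.2⟩,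
    fun h => ⟨(left_iff N k ω).mpr h.1, (before_iff N k ω).mpr h.2⟩⟩

theorem exists_set (N k l : ℕ) : {ω | ∃ j : ℕ, k ≤ j ∧ j ≤ l ∧ Hits N j ω} =
    H731C.Joined (Set.Iic (-(N : ℤ))) (Set.Icc 0 (l : ℤ)) \
      H731C.Joined (Set.Iic (-(N : ℤ))) (Set.Icc 0 ((k : ℤ) - 1)) := by
  ext ω
  constructor
  · rintro ⟨j, hk, hl, ⟨x, hx, hr⟩, hb⟩
    exact ⟨(joined_iff _ _ ω).mpr ⟨x, hx, j, ⟨by omega, by omega⟩, hr⟩,
      (before_iff N k ω).mp (fun i hi => hb i (by omega))⟩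
  · rintro ⟨h1, hb⟩
    obtain ⟨x, hx, y, hy, hr⟩ := (joined_iff _ _ ω).mp h1
    have hb' := (before_iff N k ω).mpr hb
    obtain ⟨j, rfl⟩ := Int.eq_ofNat_of_zero_le hy.1
    have hex : ∃ j : ℕ, JoinedToLeft N j ω := ⟨j, x, hx, hr⟩
    classical
    refine ⟨Nat.find hex, ?_, ?_, Nat.find_spec hex, fun i hi => Nat.find_min hex hi⟩
    · by_contra hlt
      exact hb' _ (by omega) (Nat.find_spec hex)
    · have h1 : Nat.find hex ≤ j := Nat.find_min' hex ⟨x, hx, hr⟩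
      have := hy.2
      omega

/-- The law of the point `k` at which the exploration path started at `-N` arrives on `[0, ∞)`:
up to constants which do not depend on `N`, it is equal to `N^(1/3) (k+1)^(-2/3) (N+k)^(-2/3)` at
every point `k`, and to Cardy's formula on every interval. -/
theorem result : ∃ c C : ℝ, 0 < c ∧ 0 < C ∧
    (∀ N k : ℕ, 1 ≤ N →
      c * ((N : ℝ) ^ ((1 : ℝ) / 3) /
        (((k : ℝ) + 1) ^ ((2 : ℝ) / 3) * ((N : ℝ) + k) ^ ((2 : ℝ) / 3))) ≤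
        crit.real {ω | Hits N k ω} ∧
      crit.real {ω | Hits N k ω} ≤ C * ((N : ℝ) ^ ((1 : ℝ) / 3) /
        (((k : ℝ) + 1) ^ ((2 : ℝ) / 3) * ((N : ℝ) + k) ^ ((2 : ℝ) / 3)))) ∧
    (∀ N k l : ℕ, 1 ≤ N → k ≤ l →
      c * (cardyF (((l : ℝ) + 1) / ((N : ℝ) + l + 1)) - cardyF ((k : ℝ) / ((N : ℝ) + k))) ≤
        crit.real {ω | ∃ j : ℕ, k ≤ j ∧ j ≤ l ∧ Hits N j ω} ∧
      crit.real {ω | ∃ j : ℕ, k ≤ j ∧ j ≤ l ∧ Hits N j ω} ≤
        C * (cardyF (((l : ℝ) + 1) / ((N : ℝ) + l + 1)) - cardyF ((k : ℝ) / ((N : ℝ) + k)))) := by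
  obtain ⟨c, C, hc, hC, h1, h2, -⟩ := H985LC.final H985LC.all_wb H985LC.t_fd H985LC.t_lm
    H985LC.t_cy
  refine ⟨c, C, hc, hC, ?_, ?_⟩
  · intro N k hN
    have h := h1 N k (by exact_mod_cast hN) (by omega)
    have e : H985LC.W N k = (N : ℝ) ^ ((1 : ℝ) / 3) /
        (((k : ℝ) + 1) ^ ((2 : ℝ) / 3) * ((N : ℝ) + k) ^ ((2 : ℝ) / 3)) := by
      unfold H985LC.W
      push_cast
      rfl
    rw [e] at h
    rw [hits_set]
    exact h
  · intro N k l hN hkl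
    have h := h2 N k l (by exact_mod_cast hN) (by omega) (by exact_mod_cast hkl)
    have hsub : H731C.Joined (Set.Iic (-(N : ℤ))) (Set.Icc 0 ((k : ℤ) - 1)) ⊆
        H731C.Joined (Set.Iic (-(N : ℤ))) (Set.Icc 0 (l : ℤ)) := by
      rintro ω ⟨x, hx, y, hy, p, hp⟩
      exact ⟨x, hx, y, ⟨hy.1, by have := hy.2; omega⟩, p, hp⟩
    have e0 : (H974.bondLaw H731C.half).real (H731C.Joined (Set.Iic (-(N : ℤ))) (Set.Icc 0 (l : ℤ)) \
        H731C.Joined (Set.Iic (-(N : ℤ))) (Set.Icc 0 ((k : ℤ) - 1))) =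
        H731C.crossProb (Set.Iic (-(N : ℤ))) (Set.Icc 0 (l : ℤ)) -
          H731C.crossProb (Set.Iic (-(N : ℤ))) (Set.Icc 0 ((k : ℤ) - 1)) :=
      measureReal_sdiff hsub (H985LC.meas_Iic _ _ _)
    have e : crit.real {ω | ∃ j : ℕ, k ≤ j ∧ j ≤ l ∧ Hits N j ω} =
        H731C.crossProb (Set.Iic (-(N : ℤ))) (Set.Icc 0 (l : ℤ)) -
          H731C.crossProb (Set.Iic (-(N : ℤ))) (Set.Icc 0 ((k : ℤ) - 1)) := by
      rw [exists_set]
      exact e0
    rw [e]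
    have e1 : (((l : ℤ) + 1 : ℤ) : ℝ) / (((N : ℤ) : ℝ) + (((l : ℤ) + 1 : ℤ) : ℝ)) =
        ((l : ℝ) + 1) / ((N : ℝ) + l + 1) := by
      push_cast
      rw [add_assoc]
    have e2 : (((k : ℤ) : ℝ) / (((N : ℤ) : ℝ) + ((k : ℤ) : ℝ))) = (k : ℝ) / ((N : ℝ) + k) := by
      push_cast
      rfl
    rw [e1, e2] at h
    exact h

end Pool.Agent.Results.MP_6c8efb_pr.HittingLaw
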