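import Pool.Agent.R965.HT.Top

/-!
# Large displacements of the half-plane exploration path

Critical bond percolation on `ℤ × ℕ`, the edges `[x, x + 1]` of the real axis open for `x < 0` and
closed for `x ≥ 0`. The exploration path starts next to the origin and keeps the open cluster of
the negative half-axis on its left; `gam ω k` is its point after `k` steps, `reach n ω` is its
greatest distance from the origin in the first `n` steps and `curve n ω` is the rescaled path
`n ^ (-4/7) γ(n t)`, `0 ≤ t ≤ 1`, with law `lawH n`. The probability that `reach n` is at least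
`x n ^ (4/7)` is of order `exp(-Θ(x ^ (7/3)))`, uniformly in `n` and in the whole relevant range
of `x`, and the same holds for the greatest distance from the origin in every subsequential
scaling limit.

Definitions: `Pool.Agent.H984R4.HN.HPDefs` (`Conf`, `perc`, `opn`, `step`, `path`, `place`, `gam`,
`curve`, `reach`), `Pool.Agent.H984R4.HN.FinalH` (`lawH`), `Pool.Agent.H984R4.NP.Model` (`pl`,
`clamp`).

The upper bound for fixed `n` is in the starting files (`TH992.L.up_tail`); the lower bound and the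
limit laws are in `Pool.Agent.R965.HT`.
-/

set_option autoImplicit false

namespace Pool.Agent.Results.MP_6c8efb_pr.LargeDisplacement

open H984H MeasureTheory Filter Topology

theorem result : ∃ a A c : ℝ, 0 < a ∧ 0 < A ∧ 0 < c ∧
    (∀ (n : ℕ) (x : ℝ), 1 ≤ n → 0 < x →
      perc.real {ω | x * (n : ℝ) ^ (4/7 : ℝ) ≤ reach n ω} ≤ A * Real.exp (-(a * x ^ (7/3 : ℝ)))) ∧
    (∀ (n : ℕ) (x : ℝ), 1 ≤ n → 1 ≤ x → x ≤ c * (n : ℝ) ^ (3/7 : ℝ) →
      Real.exp (-(A * x ^ (7/3 : ℝ))) ≤ perc.real {ω | x * (n : ℝ) ^ (4/7 : ℝ) ≤ reach n ω}) ∧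
    (∀ φ : ℕ → ℕ, Tendsto φ atTop atTop → ∃ ψ : ℕ → ℕ, StrictMono ψ ∧
      ∃ μ : ProbabilityMeasure C(unitInterval, ℂ),
        Tendsto (fun i => lawH (φ (ψ i))) atTop (𝓝 μ)) ∧
    (∀ φ : ℕ → ℕ, Tendsto φ atTop atTop → ∀ μ : ProbabilityMeasure C(unitInterval, ℂ),
      Tendsto (fun i => lawH (φ i)) atTop (𝓝 μ) → ∀ x : ℝ, 1 ≤ x →
        ENNReal.ofReal (Real.exp (-(A * x ^ (7/3 : ℝ)))) ≤
          (μ : Measure C(unitInterval, ℂ)) {f | x ≤ ‖f‖} ∧
        (μ : Measure C(unitInterval, ℂ)) {f | x ≤ ‖f‖} ≤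
          ENNReal.ofReal (A * Real.exp (-(a * x ^ (7/3 : ℝ))))) := by
  obtain ⟨a, A, c, ha, hA, hc, h1, h2, h3⟩ := Pool.Agent.R965.HT.large
  exact ⟨a, A, c, ha, hA, hc, h1, h2, Pool.Agent.R965.HT.tight, h3⟩

end Pool.Agent.Results.MP_6c8efb_pr.LargeDisplacement
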